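import Pool.Agent.Helper61.PV.St

/-!
# Project PV: module Fib (fibers of a box)
-/

set_option autoImplicit false

namespace Pool.Agent.Helper80.PV

open Pool.Agent.Helper61.PV Finset

open Classical in
private theorem card_and {α : Type} (s : Finset α) (P : α → Prop) :
    Nat.card {x : α // x ∈ s ∧ P x} = ∑ x ∈ s, if P x then 1 else 0 := by
  rw [← Finset.card_filter]
  rw [Nat.subtype_card (s.filter P)]
  intro x
  rw [mem_filter]

open Classical in
/-- **StFib** -/
theorem hFib : StFib := by
  intro d A h i Q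
  have hL : ∀ g : Fin (d + 1) → ℤ,
      Nat.card {n : ℤ // n ∈ Ico (A i) (A i + h i) ∧ Q (Function.update g i n)} =
        ∑ n ∈ Ico (A i) (A i + h i), if Q (Function.update g i n) then 1 else 0 :=
    fun g => card_and _ _
  simp only [hL]
  rw [card_and (Bx A h) Q, ← Finset.sum_product']
  have hI : (Ico (A i) (A i + h i)).card = h i := by
    rw [Int.card_Ico]
    simp
  have hR : h i * ∑ g ∈ Bx A h, (if Q g then 1 else 0) =
      ∑ x ∈ Bx A h ×ˢ Ico (A i) (A i + h i), if Q x.1 then 1 else 0 := by
    rw [Finset.sum_product, Finset.mul_sum]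
    apply Finset.sum_congr rfl
    intro g _
    by_cases hQ : Q g
    · rw [if_pos hQ]
      have : ∀ y ∈ Ico (A i) (A i + h i), (if Q (g, y).1 then 1 else 0) = 1 :=
        fun y _ => if_pos hQ
      rw [Finset.sum_congr rfl this, Finset.sum_const, hI, smul_eq_mul]
    · rw [if_neg hQ]
      have : ∀ y ∈ Ico (A i) (A i + h i), (if Q (g, y).1 then 1 else 0) = 0 :=
        fun y _ => if_neg hQ
      rw [Finset.sum_congr rfl this, Finset.sum_const, hI, smul_eq_mul]
  rw [hR]
  have hmem : ∀ x ∈ Bx A h ×ˢ Ico (A i) (A i + h i),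
      (Function.update x.1 i x.2, x.1 i) ∈ Bx A h ×ˢ Ico (A i) (A i + h i) := by
    intro x hx
    rw [mem_product] at hx ⊢
    obtain ⟨h1, h2⟩ := hx
    unfold Bx at h1 ⊢
    rw [Fintype.mem_piFinset] at h1 ⊢
    refine ⟨fun j => ?_, h1 i⟩
    by_cases hj : j = i
    · subst hj
      simpa using h2
    · simpa [Function.update_of_ne hj] using h1 j
  refine Finset.sum_nbij' (fun x => (Function.update x.1 i x.2, x.1 i))
    (fun x => (Function.update x.1 i x.2, x.1 i)) hmem hmem ?_ ?_ ?_
  · intro x _
    simp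
  · intro x _
    simp
  · intro x _
    rfl

end Pool.Agent.Helper80.PV
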