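import Pool.Agent.Helper61.PV.St

/-!
# Project PV: module Low (no prime value before `c S`)
-/

set_option autoImplicit false

namespace Pool.Agent.Helper80.PV

open Pool.Agent.Helper61.PV Finset

open Classical in
private theorem card_flt {α : Type} (s : Finset α) (P : α → Prop) :
    Nat.card {x : α // x ∈ s ∧ P x} = (s.filter P).card := by
  rw [Nat.subtype_card (s.filter P)]
  intro x
  rw [mem_filter]

open Classical in
private theorem card_union3 {α : Type} (s : Finset α) (P P1 P2 P3 : α → Prop)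
    (h : ∀ x ∈ s, P x → P1 x ∨ P2 x ∨ P3 x) :
    Nat.card {x : α // x ∈ s ∧ P x} ≤ Nat.card {x : α // x ∈ s ∧ P1 x} +
      Nat.card {x : α // x ∈ s ∧ P2 x} + Nat.card {x : α // x ∈ s ∧ P3 x} := by
  rw [card_flt, card_flt, card_flt, card_flt]
  have h1 : s.filter P ⊆ (s.filter P1 ∪ s.filter P2) ∪ s.filter P3 := by
    intro x hx
    rw [mem_filter] at hx
    rw [mem_union, mem_union, mem_filter, mem_filter, mem_filter]
    have := h x hx.1 hx.2
    tauto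
  calc (s.filter P).card ≤ ((s.filter P1 ∪ s.filter P2) ∪ s.filter P3).card := card_le_card h1
    _ ≤ (s.filter P1 ∪ s.filter P2).card + (s.filter P3).card := card_union_le _ _
    _ ≤ _ := Nat.add_le_add_right (card_union_le _ _) _

/-- **StLow** -/
theorem hLow (hLo1 : StLo1) (hLo2 : StLo2) (hTop : StTop) : StLow := by
  intro ε hε
  set κ : ℝ := min (ε / 4) (1 / 4) with hκ
  have hκ0 : 0 < κ := lt_min (by linarith) (by norm_num)
  have hκ1 : κ ≤ 1 / 4 := min_le_right _ _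
  have hκ2 : κ ≤ ε / 4 := min_le_left _ _
  set M : ℕ := ⌈1 + 8 / κ⌉₊ with hM
  obtain ⟨H1, h1⟩ := hLo1 M (ε / 4) (by linarith)
  obtain ⟨c', H2, hc', h2⟩ := hLo2 κ (ε / 4) hκ0 hκ1 (by linarith)
  refine ⟨c', max H1 H2, hc', fun H hH d hd hdH => ?_⟩
  have e1 := h1 H (le_trans (le_max_left _ _) hH) d hd
  have e2 := h2 H (le_trans (le_max_right _ _) hH) d hd hdH
  have e3 := hTop d H κ hκ0
  have hcard : (0 : ℝ) ≤ #(Bxx d H) := Nat.cast_nonneg _
  have hu := card_union3 (Bxx d H)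
    (fun c => ∃ m : ℕ, 1 ≤ m ∧ (m : ℝ) ≤ c' * Sz H d ∧ (ev c m).toNat.Prime)
    (fun c => ∃ m : ℕ, m ≤ M ∧ (ev c m).toNat.Prime)
    (fun c => κ * H ≤ c (Fin.last d) ∧
      ∃ m : ℕ, 1 + 8 / κ ≤ m ∧ (m : ℝ) ≤ c' * Sz H d ∧ (ev c m).toNat.Prime)
    (fun c => ¬ κ * H ≤ c (Fin.last d)) (by
      rintro c _ ⟨m, hm1, hm2, hm3⟩
      by_cases hc : κ * H ≤ c (Fin.last d)
      · by_cases hmM : m ≤ M
        · exact Or.inl ⟨m, hmM, hm3⟩
        · right
          left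
          refine ⟨hc, m, ?_, hm2, hm3⟩
          have h3 : (1 + 8 / κ : ℝ) ≤ M := Nat.le_ceil _
          have h4 : (M : ℝ) ≤ m := by exact_mod_cast (not_le.mp hmM).le
          linarith
      · exact Or.inr (Or.inr hc))
  have hu' : ((Nat.card {c : Fin (d + 1) → ℤ // c ∈ Bxx d H ∧
      ∃ m : ℕ, 1 ≤ m ∧ (m : ℝ) ≤ c' * Sz H d ∧ (ev c m).toNat.Prime} : ℕ) : ℝ) ≤
      Nat.card {c : Fin (d + 1) → ℤ // c ∈ Bxx d H ∧ ∃ m : ℕ, m ≤ M ∧ (ev c m).toNat.Prime} +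
      Nat.card {c : Fin (d + 1) → ℤ // c ∈ Bxx d H ∧ (κ * H ≤ c (Fin.last d) ∧
        ∃ m : ℕ, 1 + 8 / κ ≤ m ∧ (m : ℝ) ≤ c' * Sz H d ∧ (ev c m).toNat.Prime)} +
      Nat.card {c : Fin (d + 1) → ℤ // c ∈ Bxx d H ∧ ¬ κ * H ≤ c (Fin.last d)} := by
    exact_mod_cast hu
  nlinarith [hu', e1, e2, e3, mul_le_mul_of_nonneg_right hκ2 hcard]

end Pool.Agent.Helper80.PV
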